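import Pool.Agent.PakG

set_option autoImplicit false
set_option linter.unusedSectionVars false

namespace Pool.Agent.Results.MP_ec2323_pr.TypicalNoCutoff

open Filter Topology Finset

section defs

variable {V : Type} [Fintype V] [DecidableEq V] (G : SimpleGraph V) [DecidableRel G.Adj]

/-- Generator of continuous-time simple random walk: at rate `1` jump to a uniform neighbour. -/
noncomputable def gen : Matrix V V ℝ := fun x y =>
  (if G.Adj x y then 1 / (G.degree x : ℝ) else 0) - (if x = y then 1 else 0)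

/-- `P_x(X_t = y) = exp(t Q)(x,y)` -/
noncomputable def kern (t : ℝ) : Matrix V V ℝ := NormedSpace.exp (t • gen G)

/-- stationary distribution `deg(x) / (2|E|)` -/
noncomputable def stat (x : V) : ℝ := (G.degree x : ℝ) / (2 * (G.edgeFinset.card : ℝ))

/-- `d_x(t) = ‖P_x(X_t ∈ ·) - π‖_TV` -/
noncomputable def dist (x : V) (t : ℝ) : ℝ := (1 / 2) * ∑ y, |kern G t x y - stat G y|

/-- `τ_x = inf {t ≥ 0 : d_x(t) ≤ 1/4}` -/
noncomputable def tau (x : V) : ℝ := sInf {t : ℝ | 0 ≤ t ∧ dist G x t ≤ 1 / 4}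

open Classical in
/-- `π(A)` -/
noncomputable def mass (A : Set V) : ℝ := ∑ x, if x ∈ A then stat G x else 0

/-- `m` is a median of `τ_x` when `x` has law `π`. -/
def IsMedian (m : ℝ) : Prop :=
  1 / 2 ≤ mass G {x | tau G x ≤ m} ∧ 1 / 2 ≤ mass G {x | m ≤ tau G x}

/-- spectral gap of the generator: the smallest nonzero eigenvalue of `-Q` -/
noncomputable def gap : ℝ :=
  sInf {l : ℝ | l ≠ 0 ∧ ∃ f : V → ℝ, f ≠ 0 ∧ ∀ x, ∑ y, -(gen G x y) * f y = l * f x}

/-- relaxation time -/
noncomputable def tau2 : ℝ := 1 / gap G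

end defs

lemma gen_eq {n : ℕ} (π : Pak.Params n) [DecidableRel (Pak.GG π).Adj] :
    gen (Pak.GG π) = Pak.QQ π := by
  ext x y
  unfold gen Pak.QQ
  rw [Matrix.smul_apply, Matrix.sub_apply, Matrix.one_apply, smul_eq_mul, Pak.PP_apply',
    Pak.GG_degree]
  have hD := Pak.DD_ge1 π
  unfold Pak.cc
  split_ifs <;> field_simp <;> ring

lemma stat_eq {n : ℕ} (π : Pak.Params n) [DecidableRel (Pak.GG π).Adj] (x : Pak.VV π) :
    stat (Pak.GG π) x = 1 / Fintype.card (Pak.VV π) := by
  unfold stat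
  have h := (Pak.GG π).sum_degrees_eq_twice_card_edges
  have h2 : ((∑ v, (Pak.GG π).degree v : ℕ) : ℝ) = 2 * ((Pak.GG π).edgeFinset.card : ℝ) := by
    rw [h]; push_cast; ring
  rw [← h2]
  push_cast
  simp_rw [Pak.GG_degree]
  rw [sum_const, card_univ, nsmul_eq_mul]
  have hD := Pak.DD_ge1 π
  have hV : (0 : ℝ) < Fintype.card (Pak.VV π) := by
    exact_mod_cast (Fintype.card_pos : 0 < Fintype.card (Pak.VV π))
  field_simp

lemma dist_eq {n : ℕ} (π : Pak.Params n) [DecidableRel (Pak.GG π).Adj] (x : Pak.VV π) (t : ℝ) :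
    dist (Pak.GG π) x t = Pak.ctv π t x := by
  unfold dist Pak.ctv kern Pak.Kt
  simp_rw [gen_eq, stat_eq]

lemma tau_eq {n : ℕ} (π : Pak.Params n) [DecidableRel (Pak.GG π).Adj] (x : Pak.VV π) :
    tau (Pak.GG π) x = Pak.taus π := by
  unfold tau Pak.taus
  simp_rw [dist_eq, Pak.ctv_eq π _ x]

lemma mass_empty {n : ℕ} (π : Pak.Params n) [DecidableRel (Pak.GG π).Adj] :
    mass (Pak.GG π) ∅ = 0 := by
  unfold mass
  simp

lemma median_eq {n : ℕ} (π : Pak.Params n) [DecidableRel (Pak.GG π).Adj] {m : ℝ}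
    (h : IsMedian (Pak.GG π) m) : m = Pak.taus π := by
  obtain ⟨h1, h2⟩ := h
  simp_rw [tau_eq] at h1 h2
  by_contra hne
  rcases lt_or_gt_of_ne hne with hlt | hlt
  · have : {x : Pak.VV π | Pak.taus π ≤ m} = ∅ := by
      ext x; simp only [Set.mem_ofPred_eq, Set.mem_empty_iff_false, iff_false, not_le]; exact hlt
    rw [this, mass_empty] at h1
    linarith
  · have : {x : Pak.VV π | m ≤ Pak.taus π} = ∅ := by
      ext x; simp only [Set.mem_ofPred_eq, Set.mem_empty_iff_false, iff_false, not_le]; exact hlt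
    rw [this, mass_empty] at h2
    linarith

lemma mass_univ {n : ℕ} (π : Pak.Params n) [DecidableRel (Pak.GG π).Adj] :
    mass (Pak.GG π) Set.univ = 1 := by
  unfold mass
  simp only [Set.mem_univ, if_true]
  simp_rw [stat_eq]
  rw [sum_const, card_univ, nsmul_eq_mul]
  have hV : (0 : ℝ) < Fintype.card (Pak.VV π) := by
    exact_mod_cast (Fintype.card_pos : 0 < Fintype.card (Pak.VV π))
  field_simp

lemma median_taus {n : ℕ} (π : Pak.Params n) [DecidableRel (Pak.GG π).Adj] :
    IsMedian (Pak.GG π) (Pak.taus π) := by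
  unfold IsMedian
  simp_rw [tau_eq]
  have : {x : Pak.VV π | Pak.taus π ≤ Pak.taus π} = Set.univ := by
    ext x; simp
  rw [this, mass_univ]
  norm_num

lemma gap_ge {n : ℕ} (π : Pak.Params n) (hn : 1 ≤ n) [DecidableRel (Pak.GG π).Adj] :
    1 / 3 ≤ gap (Pak.GG π) := by
  unfold gap
  rw [gen_eq]
  apply le_csInf
  · exact ⟨Pak.lq π, (Pak.lq_pos π).ne', Pak.ev π, Pak.ev_ne π, Pak.ev_Q π⟩
  · rintro l ⟨hl, f, hf, hlf⟩
    exact Pak.Q_eig_real π hn f hf l hl hlf

/-- **Main theorem.** It is false that for every sequence of finite connected simple graphs with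
`|V_n| → ∞` satisfying the product condition `τ(n)/τ₂(n) → ∞`, the continuous-time simple random
walks have total variation cutoff from a stationary start. -/
theorem result :
    ¬ (∀ (V : ℕ → Type) [∀ n, Fintype (V n)] [∀ n, DecidableEq (V n)]
        (G : ∀ n, SimpleGraph (V n)) [∀ n, DecidableRel (G n).Adj] (τ : ℕ → ℝ),
        (∀ n, (G n).Connected) →
        Tendsto (fun n => Fintype.card (V n)) atTop atTop →
        (∀ n, IsMedian (G n) (τ n)) →
        Tendsto (fun n => τ n / tau2 (G n)) atTop atTop →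
        ∀ ε : ℝ, 0 < ε → ε < 1 →
          Tendsto (fun n => mass (G n) {x | 1 - ε < dist (G n) x ((1 - ε) * τ n)}) atTop (𝓝 1) ∧
          Tendsto (fun n => mass (G n) {x | dist (G n) x ((1 + ε) * τ n) < ε}) atTop (𝓝 1)) := by
  classical
  intro H
  have h100 : ∀ n : ℕ, 100 ≤ n + 100 := fun n => by omega
  have h2 := (H (fun n => Pak.VV (Pak.par n)) (fun n => Pak.GG (Pak.par n))
    (fun n => Pak.taus (Pak.par n)) (fun n => Pak.GG_conn _)
    (by
      apply tendsto_atTop_mono (fun n => Pak.card_VV_ge (Pak.par n))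
      exact tendsto_atTop_mono (fun n => Nat.le_add_right n 100) tendsto_id)
    (fun n => median_taus _)
    (by
      have h3 : Tendsto (fun n : ℕ => (n : ℝ) / 60) atTop atTop :=
        tendsto_natCast_atTop_atTop.atTop_div_const (by norm_num)
      apply tendsto_atTop_mono _ h3
      intro n
      have h4 := Pak.ratio_ge (h100 n) (Pak.taus_ge (Pak.par n) (h100 n))
        (gap_ge (Pak.par n) (by omega))
      unfold tau2
      push_cast at h4
      linarith)
    (1 / 2000) (by norm_num) (by norm_num)).1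
  have h3 : ∀ n : ℕ, mass (Pak.GG (Pak.par n)) {x | 1 - 1 / 2000 < dist (Pak.GG (Pak.par n)) x
      ((1 - 1 / 2000) * Pak.taus (Pak.par n))} = 0 := by
    intro n
    have : {x | 1 - 1 / 2000 < dist (Pak.GG (Pak.par n)) x
      ((1 - 1 / 2000) * Pak.taus (Pak.par n))} = ∅ := by
      ext x
      simp only [Set.mem_ofPred_eq, Set.mem_empty_iff_false, iff_false, not_lt]
      rw [dist_eq]
      exact Pak.ctv_mid (Pak.par n) (h100 n) (Pak.taus_ge (Pak.par n) (h100 n)) x
    rw [this, mass_empty]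
  simp_rw [h3] at h2
  have h4 := tendsto_nhds_unique h2 tendsto_const_nhds
  norm_num at h4

end Pool.Agent.Results.MP_ec2323_pr.TypicalNoCutoff
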